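import Pool.Agent.W360.MQ.Stm

/-! MQ-PIECE: the pieces are quasiconvex. -/

set_option autoImplicit false

namespace Pool.Agent.W978.MQ

open MeasureTheory Set Filter Topology
open Pool.Agent.W488.IW (V Idx gd box tp ek ka kb)
open Pool.Agent.W360.BQ (QCF)
open Pool.Agent.W360.MQ

/-- continuous and quasiconvex -/
def G (w : ℂ × ℂ → ℝ) : Prop := Continuous w ∧ QA w

theorem gd_cont (Λ : Finset Idx) (c : Idx → ℂ) : Continuous (gd Λ c) := by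
  unfold gd tp ek
  fun_prop

theorem w_int {w : ℂ × ℂ → ℝ} (hw : Continuous w) (F0 : ℂ × ℂ) (Λ : Finset Idx) (c : Idx → ℂ) :
    IntegrableOn (fun x => w (F0 + gd Λ c x)) (Icc (0 : V) 1) := by
  refine ContinuousOn.integrableOn_compact isCompact_Icc ?_
  exact (hw.comp (continuous_const.add (gd_cont Λ c))).continuousOn

theorem G.add {w w' : ℂ × ℂ → ℝ} (h : G w) (h' : G w') : G (fun F => w F + w' F) := by
  refine ⟨h.1.add h'.1, ?_⟩
  intro F0 N c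
  rw [integral_add (w_int h.1 F0 _ c) (w_int h'.1 F0 _ c)]
  exact add_le_add (h.2 F0 N c) (h'.2 F0 N c)

theorem G.smul {w : ℂ × ℂ → ℝ} (h : G w) {a : ℝ} (ha : 0 ≤ a) : G (fun F => a * w F) := by
  refine ⟨continuous_const.mul h.1, ?_⟩
  intro F0 N c
  rw [integral_const_mul]
  exact mul_le_mul_of_nonneg_left (h.2 F0 N c) ha

theorem cvx1 : ConvexOn ℝ univ (fun F : ℂ × ℂ => ‖F.1‖) :=
  (convexOn_univ_norm (E := ℂ)).comp_linearMap (LinearMap.fst ℝ ℂ ℂ)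

theorem cvx2 : ConvexOn ℝ univ (fun F : ℂ × ℂ => ‖F.2‖) :=
  (convexOn_univ_norm (E := ℂ)).comp_linearMap (LinearMap.snd ℝ ℂ ℂ)

theorem cvx12 : ConvexOn ℝ univ (fun F : ℂ × ℂ => ‖F.1‖ + ‖F.2‖) := cvx1.add cvx2

theorem cvxm (r : ℝ) : ConvexOn ℝ univ (fun F : ℂ × ℂ => max (‖F.1‖ + ‖F.2‖ - r) 0) := by
  have h1 : ConvexOn ℝ univ (fun F : ℂ × ℂ => ‖F.1‖ + ‖F.2‖ - r) := by
    have h := cvx12.add (convexOn_const (-r) convex_univ)
    have e : ((fun F : ℂ × ℂ => ‖F.1‖ + ‖F.2‖) + fun _ : ℂ × ℂ => -r) =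
        fun F : ℂ × ℂ => ‖F.1‖ + ‖F.2‖ - r := by
      funext F
      rw [Pi.add_apply, sub_eq_add_neg]
    rw [e] at h
    exact h
  exact h1.sup (convexOn_const 0 convex_univ)

theorem main (h1 : S_KER) (h2 : S_SWAP) (h3 : S_CVX) (h4 : S_DET) : S_PIECE := by
  intro N r p q m A B C c d hi hA hB hC
  have g0 : G (fun _ : ℂ × ℂ => d) :=
    ⟨continuous_const, h3 _ (convexOn_const d convex_univ) continuous_const⟩
  have c1 : Continuous (fun F : ℂ × ℂ => ‖F.1‖) := continuous_fst.norm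
  have c2 : Continuous (fun F : ℂ × ℂ => ‖F.2‖) := continuous_snd.norm
  have g1 : G (fun F : ℂ × ℂ => ‖F.1‖ + ‖F.2‖) := ⟨c1.add c2, h3 _ cvx12 (c1.add c2)⟩
  have g2 : G (fun F : ℂ × ℂ => ‖F.1‖) := ⟨c1, h3 _ cvx1 c1⟩
  have g3 : G (fun F : ℂ × ℂ => ‖F.2‖) := ⟨c2, h3 _ cvx2 c2⟩
  have g4 : G (fun F : ℂ × ℂ => c * (‖F.1‖ ^ 2 - ‖F.2‖ ^ 2)) :=
    ⟨continuous_const.mul ((c1.pow 2).sub (c2.pow 2)), h4 c⟩
  have g5 : ∀ i, G (fun F : ℂ × ℂ => Kr (r i) ‖F.1‖ ‖F.2‖) := by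
    intro i
    refine ⟨?_, h1 (r i) (hi i).1⟩
    unfold Kr
    fun_prop
  have g6 : ∀ i, G (fun F : ℂ × ℂ => Kr (r i) ‖F.2‖ ‖F.1‖) := by
    intro i
    refine ⟨?_, h2 (Kr (r i)) (h1 (r i) (hi i).1)⟩
    unfold Kr
    fun_prop
  have g7 : ∀ i, G (fun F : ℂ × ℂ => max (‖F.1‖ + ‖F.2‖ - r i) 0) := by
    intro i
    have hc : Continuous (fun F : ℂ × ℂ => max (‖F.1‖ + ‖F.2‖ - r i) 0) := by fun_prop
    exact ⟨hc, h3 _ (cvxm (r i)) hc⟩
  have g8 : ∀ N : ℕ, G (fun F : ℂ × ℂ => ∑ i ∈ Finset.range N, (p i * Kr (r i) ‖F.1‖ ‖F.2‖ +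
      q i * Kr (r i) ‖F.2‖ ‖F.1‖ + m i * max (‖F.1‖ + ‖F.2‖ - r i) 0)) := by
    intro N
    induction N with
    | zero =>
      simp only [Finset.range_zero, Finset.sum_empty]
      exact ⟨continuous_const, h3 _ (convexOn_const 0 convex_univ) continuous_const⟩
    | succ N ih =>
      simp only [Finset.sum_range_succ]
      exact ih.add ((((g5 N).smul (hi N).2.1).add ((g6 N).smul (hi N).2.2.1)).add
        ((g7 N).smul (hi N).2.2.2))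
  exact (((((g0.add (g1.smul hA)).add (g2.smul hB)).add (g3.smul hC)).add g4).add (g8 N)).2

end Pool.Agent.W978.MQ
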